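import Mathlib

/-!
# The fixed point forest with Ewens or Mallows roots: definitions (helper5)

Positions and letters are numbered from `0`.
-/

set_option autoImplicit false

open MeasureTheory Filter Topology ProbabilityTheory Set

namespace Pool.Agent.K3h5.FF

/-! ### rooted graphs and balls -/

/-- the vertices at distance at most `r` from `o` -/
def ballSet {V : Type} (G : SimpleGraph V) (o : V) (r : ℕ) : Set V :=
  {v | ∃ p : G.Walk o v, p.length ≤ r}

/-- the ball of radius `r` about `o` in `G` (the induced subgraph, rooted at `o`) is isomorphic, as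
a rooted graph, to `H` rooted at `p` -/
def BallIso {V W : Type} (G : SimpleGraph V) (o : V) (r : ℕ) (H : SimpleGraph W) (p : W) : Prop :=
  ∃ (e : G.induce (ballSet G o r) ≃g H) (ho : o ∈ ballSet G o r), e ⟨o, ho⟩ = p

/-! ### the fixed point forest -/

/-- `π'` arises from `π` by bumping the fixed point `i`: the letter `i` goes to the front, the
letters at the positions before `i` move one position to the right, the others stay. -/
def IsBump {n : ℕ} (i : Fin n) (π π' : Equiv.Perm (Fin n)) : Prop :=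
  π i = i ∧ (∀ j : Fin n, j.val = 0 → π' j = i) ∧
    (∀ j j' : Fin n, j < i → j'.val = j.val + 1 → π' j' = π j) ∧ (∀ j : Fin n, i < j → π' j = π j)

/-- the fixed point forest `F_n` -/
def forest (n : ℕ) : SimpleGraph (Equiv.Perm (Fin n)) :=
  SimpleGraph.fromRel fun π π' => ∃ i, IsBump i π π'

/-! ### the limit graph -/

/-- the marks: `inl k` - a letter with letter minus position equal to `k`; `inr j` - the letter at
the `j`-th position from the front (`j = 0, 1, …`) -/
abbrev Label := ℤ ⊕ ℕ

/-- a state: a partial labelling of the real line by marks -/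
abbrev State := ℝ → Option Label

/-- bumping the point `x` of a state: `x` becomes the first front point, the indices of the other
front points increase by one, the displacements of the points to the left of `x` decrease by one. -/
noncomputable def bumpS (x : ℝ) (s : State) : State := fun z =>
  if z = x then some (Sum.inr 0) else
    (s z).map (Sum.elim (fun k => Sum.inl (if z < x then k - 1 else k)) (fun j => Sum.inr (j + 1)))

/-- the limit graph: `s` and `t` are adjacent if one of them arises from the other by bumping a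
point with displacement `0` -/
def limitGraph : SimpleGraph State :=
  SimpleGraph.fromRel fun s t => ∃ x, s x = some (Sum.inl 0) ∧ t = bumpS x s

/-! ### the random root of the limit graph -/

/-- indices of the real random variables used for the root: `inl k` - the number `N_k` of points
of displacement `k`; `inr (inl (k, m))` - the `m`-th point of displacement `k`; `inr (inr j)` - the
`j`-th front point -/
abbrev Idx := ℤ ⊕ (ℤ × ℕ) ⊕ ℕ

/-- the points of displacement `k` -/
def pts (y : Idx → ℝ) (k : ℤ) : Set ℝ :=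
  {z | ∃ m : ℕ, (m : ℝ) < y (Sum.inl k) ∧ z = y (Sum.inr (Sum.inl (k, m)))}

open Classical in
/-- the root state built from the values `y` of the random variables -/
noncomputable def rootS (y : Idx → ℝ) : State := fun z =>
  if h : ∃ j : ℕ, z = y (Sum.inr (Sum.inr j)) then some (Sum.inr h.choose)
  else if h : ∃ k : ℤ, z ∈ pts y k then some (Sum.inl h.choose) else none

/-- the measure on `(0, 1)` with density `f` -/
noncomputable def dmeas (f : ℝ → ℝ) : Measure ℝ :=
  (volume.restrict (Ioo (0 : ℝ) 1)).withDensity fun x => ENNReal.ofReal (f x)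

/-- `Y` is a family of independent random variables: `N_k = Y (inl k)` is Poisson with mean
`∫_0^1 lam k`, the points `Y (inr (inl (k, m)))` have the density `lam k / ∫_0^1 lam k`, the front
points `Y (inr (inr j))` have the density `phi` on `(0, 1)`. So `pts (Y · ω) k`, `k ∈ ℤ`, are
independent Poisson point processes on `(0, 1)` with the intensities `lam k`, independent of the
i.i.d. front points. -/
structure Root (lam : ℤ → ℝ → ℝ) (phi : ℝ → ℝ) {Ω : Type} [MeasurableSpace Ω] (μ : Measure Ω)
    (Y : Idx → Ω → ℝ) : Prop where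
  prob : IsProbabilityMeasure μ
  meas : ∀ i, Measurable (Y i)
  indep : iIndepFun Y μ
  count : ∀ k, μ.map (Y (Sum.inl k)) =
    (poissonMeasure (Real.toNNReal (∫ x in (0 : ℝ)..1, lam k x))).map (fun m : ℕ => (m : ℝ))
  point : ∀ k m, μ.map (Y (Sum.inr (Sum.inl (k, m)))) =
    dmeas fun x => lam k x / ∫ t in (0 : ℝ)..1, lam k t
  front : ∀ j, μ.map (Y (Sum.inr (Sum.inr j))) = dmeas phi

/-! ### local limits -/

open Classical in
/-- the probability of the event `A` under the weights `P` -/
noncomputable def pr {n : ℕ} (P : Equiv.Perm (Fin n) → ℝ) (A : Set (Equiv.Perm (Fin n))) : ℝ :=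
  ∑ π, if π ∈ A then P π else 0

/-- the random rooted graphs `(F_n, π_n)`, `π_n` with the law `P n`, have the local weak limit
`(limitGraph, S ω)`, `ω` with the law `μ` -/
def LocalLimit (P : (n : ℕ) → Equiv.Perm (Fin n) → ℝ) {Ω : Type} [MeasurableSpace Ω]
    (μ : Measure Ω) (S : Ω → State) : Prop :=
  ∀ (r m : ℕ) (H : SimpleGraph (Fin m)) (p : Fin m),
    NullMeasurableSet {ω | BallIso limitGraph (S ω) r H p} μ ∧
    Tendsto (fun n => pr (P n) {π | BallIso (forest n) π r H p}) atTop
      (𝓝 (μ.real {ω | BallIso limitGraph (S ω) r H p}))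

/-! ### Ewens and Mallows -/

/-- the number of cycles (fixed points included) -/
def cyc {n : ℕ} (π : Equiv.Perm (Fin n)) : ℕ := π.partition.parts.card

/-- the Ewens distribution with parameter `θ` -/
noncomputable def ewens (θ : ℝ) (n : ℕ) (π : Equiv.Perm (Fin n)) : ℝ :=
  θ ^ cyc π / ∑ σ : Equiv.Perm (Fin n), θ ^ cyc σ

/-- the number of inversions -/
def inv {n : ℕ} (π : Equiv.Perm (Fin n)) : ℕ :=
  (Finset.univ.filter fun ij : Fin n × Fin n => ij.1 < ij.2 ∧ π ij.2 < π ij.1).card

/-- the Mallows distribution with parameter `q` -/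
noncomputable def mallows (q : ℝ) (n : ℕ) (π : Equiv.Perm (Fin n)) : ℝ :=
  q ^ inv π / ∑ σ : Equiv.Perm (Fin n), q ^ inv σ

/-- `g β x = ∫_0^x exp (-β t) dt` -/
noncomputable def g (β x : ℝ) : ℝ := ∫ t in (0 : ℝ)..x, Real.exp (-β * t)

/-- the density of the Mallows permuton -/
noncomputable def dens (β x y : ℝ) : ℝ :=
  g β 1 * Real.exp (-β * (x + y)) / (g β 1 - β * g β x * g β y) ^ 2

/-! ### auxiliary definitions for the proof -/

/-- the marks of radius `S` -/
noncomputable def Win (S : ℕ) : Finset Label := (Finset.Icc (-(S : ℤ)) S).disjSum (Finset.range S)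

/-- `LabP π l a`: the letter `a` has the mark `l` in `π` -/
def LabP {n : ℕ} (π : Equiv.Perm (Fin n)) : Label → ℤ → Prop
  | Sum.inl k, a => ∃ p : Fin n, (((π p : Fin n) : ℕ) : ℤ) = a ∧ a - ((p : ℕ) : ℤ) = k
  | Sum.inr j, a => ∃ p : Fin n, (p : ℕ) = j ∧ (((π p : Fin n) : ℕ) : ℤ) = a

/-- as `LabP`, only letters `> 2 S` -/
def LabT {n : ℕ} (S : ℕ) (π : Equiv.Perm (Fin n)) (l : Label) (a : ℤ) : Prop :=
  LabP π l a ∧ (2 * S : ℤ) < a

/-- the marks of a state -/
def LabS (s : State) (l : Label) (z : ℝ) : Prop := s z = some l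

/-- occurrences of the word `u` in a labelled linear order -/
def occ {M : Type} [LinearOrder M] (L : Label → M → Prop) {l : ℕ} (u : Fin l → Label) :
    Set (Fin l → M) := {z | StrictMono z ∧ ∀ i, L (u i) (z i)}

/-- `w` is the word of all the marks of radius `S` -/
def IsWord {M : Type} [LinearOrder M] (S : ℕ) (L : Label → M → Prop) {m : ℕ}
    (w : Fin m → Label) : Prop :=
  (∀ i, w i ∈ Win S) ∧ ∃ z ∈ occ L w, ∀ l ∈ Win S, ∀ x, L l x → ∃ i, z i = x ∧ w i = l

open Classical in
/-- the number of occurrences of `w` as a scattered subword of `u` -/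
noncomputable def subs {l m : ℕ} (u : Fin l → Label) (w : Fin m → Label) : ℕ :=
  (Finset.univ.filter fun f : Fin m → Fin l => StrictMono f ∧ ∀ i, u (f i) = w i).card

/-- words of length `l` in the marks of radius `S` -/
abbrev Wd (S l : ℕ) := Fin l → {x : Label // x ∈ Win S}

/-- forget that the letters are in `Win S` -/
def wd {S l : ℕ} (u : Wd S l) : Fin l → Label := fun i => (u i : Label)

/-- no front mark occurs twice in `u` -/
def FrontInj {l : ℕ} (u : Fin l → Label) : Prop :=
  ∀ i i' j, u i = Sum.inr j → u i' = Sum.inr j → i = i'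

/-- the density of a mark -/
def rho (lam : ℤ → ℝ → ℝ) (phi : ℝ → ℝ) : Label → ℝ → ℝ
  | Sum.inl k => lam k
  | Sum.inr _ => phi

open Classical in
/-- the limit of the expected number of occurrences of `u` -/
noncomputable def mom (lam : ℤ → ℝ → ℝ) (phi : ℝ → ℝ) {l : ℕ} (u : Fin l → Label) : ℝ :=
  if FrontInj u then
    ∫ x in {x : Fin l → ℝ | StrictMono x ∧ ∀ i, x i ∈ Ioo (0 : ℝ) 1}, ∏ i, rho lam phi (u i) (x i)
  else 0

/-- relation of the marks under the parent map, `y` is the mark of the first front point -/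
def UpRel {M : Type} [LinearOrder M] (s : ℕ) (L L' : Label → M → Prop) (y : M) : Prop :=
  (∀ j, j < s → ∀ z, L' (Sum.inr j) z ↔ L (Sum.inr (j + 1)) z) ∧
  (∀ k : ℤ, Sum.inl k ∈ Win s → ∀ z, L' (Sum.inl k) z ↔
    ((z < y ∧ L (Sum.inl (k - 1)) z) ∨ (y < z ∧ L (Sum.inl k) z) ∨ (k = 0 ∧ z = y)))

/-- relation of the marks under bumping the point `x` -/
def DownRel {M : Type} [LinearOrder M] (s : ℕ) (L L' : Label → M → Prop) (x : M) : Prop :=
  (0 < s → ∀ z, L' (Sum.inr 0) z ↔ z = x) ∧
  (∀ j, j + 1 < s → ∀ z, L' (Sum.inr (j + 1)) z ↔ L (Sum.inr j) z) ∧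
  (∀ k : ℤ, Sum.inl k ∈ Win s → ∀ z, L' (Sum.inl k) z ↔
    ((z < x ∧ L (Sum.inl (k + 1)) z) ∨ (x < z ∧ L (Sum.inl k) z)))

/-- a forest with a parent map, marks and good vertices -/
structure Sys (V M : Type) [LinearOrder M] where
  G : SimpleGraph V
  par : V → Option V
  mark : V → M
  Lab : V → Label → M → Prop
  Good : ℕ → V → Prop
  adj : ∀ v w, G.Adj v w ↔ par v = some w ∨ par w = some v
  inj : ∀ v w w', par w = some v → par w' = some v → mark w = mark w' → w = w'
  uniq : ∀ s v, Good s v → ∀ l ∈ Win s, ∀ l' ∈ Win s, ∀ z, Lab v l z → Lab v l' z → l = l'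
  front : ∀ s v, Good (s + 1) v → ∀ z, Lab v (Sum.inr 0) z ↔ z = mark v
  up : ∀ s v, Good (s + 1) v → ∃ w, par v = some w ∧ Good s w ∧ UpRel s (Lab v) (Lab w) (mark v)
  down : ∀ s v w, Good (s + 1) v → par w = some v →
    Good s w ∧ DownRel s (Lab v) (Lab w) (mark w)
  child : ∀ s v x, Good (s + 1) v → (Lab v (Sum.inl 0) x ↔ ∃ w, par w = some v ∧ mark w = x)

/-- good permutations: the marked letters are `> B` and at distance `> B` from each other -/
def GoodP (n B s : ℕ) (π : Equiv.Perm (Fin n)) : Prop :=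
  4 * s + 4 ≤ B ∧ B ≤ n ∧ ∀ l ∈ Win s, ∀ a, LabP π l a → (B : ℤ) < a ∧
    ∀ l' ∈ Win s, ∀ a', LabP π l' a' → a' ≠ a → (B : ℤ) < |a - a'|

/-- good states: every front mark is at exactly one place -/
def GoodS (s : State) : Prop := ∀ j : ℕ, ∃! z, s z = some (Sum.inr j)

/-- the values of the random variables are nice: the points are different and in `(0,1)`, the
numbers of points are natural numbers -/
def Nice (y : Idx → ℝ) : Prop :=
  (∀ i, y (Sum.inr i) ∈ Ioo (0 : ℝ) 1) ∧ Function.Injective (fun i => y (Sum.inr i)) ∧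
    ∀ k, ∃ N : ℕ, y (Sum.inl k) = N

/-- the index of the random point used for the letter `i` of the word `u` if the numbers `c i` are
chosen -/
def ix {l : ℕ} (u : Fin l → Label) (c : Fin l → ℕ) (i : Fin l) : (ℤ × ℕ) ⊕ ℕ :=
  match u i with
  | Sum.inl k => Sum.inl (k, c i)
  | Sum.inr j => Sum.inr j

/-- assignments: `c i = 0` for front marks -/
def Asg {l : ℕ} (u : Fin l → Label) : Set (Fin l → ℕ) := {c | ∀ i j, u i = Sum.inr j → c i = 0}

/-- the conditions on the weights `P` and the densities -/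
structure Model (P : (n : ℕ) → Equiv.Perm (Fin n) → ℝ) (lam : ℤ → ℝ → ℝ) (phi : ℝ → ℝ) :
    Prop where
  nonneg : ∀ n π, 0 ≤ P n π
  sum : ∀ n, ∑ π, P n π = 1
  bound : ∃ C : ℝ, 1 ≤ C ∧ ∀ (n l : ℕ) (p a : Fin l → Fin n), Function.Injective p →
    Function.Injective a → pr (P n) {π | ∀ i, π (p i) = a i} ≤ C ^ l / (n.descFactorial l : ℝ)
  lim : ∀ (l : ℕ) (u : Fin l → Label), FrontInj u → ∀ x : Fin l → ℝ, StrictMono x →
    (∀ i, x i ∈ Ioo (0 : ℝ) 1) →
    Tendsto (fun n : ℕ => (n : ℝ) ^ l * pr (P n) {π | ∀ i, LabP π (u i) ⌊(n : ℝ) * x i⌋}) atTop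
      (𝓝 (∏ i, rho lam phi (u i) (x i)))
  lam_cont : ∀ k, ContinuousOn (lam k) (Icc 0 1)
  lam_pos : ∀ k, ∀ x ∈ Icc (0 : ℝ) 1, 0 < lam k x
  phi_cont : ContinuousOn phi (Icc 0 1)
  phi_pos : ∀ x ∈ Icc (0 : ℝ) 1, 0 < phi x
  phi_int : ∫ x in (0 : ℝ)..1, phi x = 1

/-- `q`-numbers -/
noncomputable def qn (q : ℝ) (k : ℕ) : ℝ := ∑ j ∈ Finset.range k, q ^ j

/-- the number of positions `< t` with letters `< m` -/
def Fc {n : ℕ} (t m : ℕ) (π : Equiv.Perm (Fin n)) : ℕ :=
  (Finset.univ.filter fun i : Fin n => i.val < t ∧ (π i).val < m).card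

/-- the number of positions in `I` with letters in `J` -/
def NN {n : ℕ} (I J : Finset (Fin n)) (π : Equiv.Perm (Fin n)) : ℕ :=
  (I.filter fun i => π i ∈ J).card

/-- the distribution function of the Mallows permuton -/
noncomputable def UU (β x y : ℝ) : ℝ :=
  if β = 0 then x * y else -(Real.log (1 - β * (g β x * g β y / g β 1))) / β

end Pool.Agent.K3h5.FF
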