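import Pool.Agent.K3h5.FF.Stm

/-!
# The fixed point forest with Ewens or Mallows roots: final statements (helper5)
-/

set_option autoImplicit false

open MeasureTheory Filter Topology ProbabilityTheory Set

namespace Pool.Agent.K3h5.FF

/-- The Ewens case. -/
theorem ewens_case (hEXR : S_EXR) (hMAIN : S_MAIN) (hE : S_EWM) (θ : ℝ) (hθ : 0 < θ) :
    (∃ μ : Measure (Idx → ℝ), Root (lamE θ) (fun _ => 1) μ (fun i y => y i)) ∧
    ∀ (Ω : Type) [MeasurableSpace Ω] (μ : Measure Ω) (Y : Idx → Ω → ℝ),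
      Root (lamE θ) (fun _ => 1) μ Y →
        LocalLimit (fun n => ewens θ n) μ (fun ω => rootS fun i => Y i ω) := by
  have M := hE θ hθ
  exact ⟨hEXR _ _ M.lam_cont M.lam_pos M.phi_cont M.phi_pos M.phi_int,
    fun Ω _ μ Y hY => hMAIN _ _ _ M Ω μ Y hY⟩

/-- The Mallows case. -/
theorem mallows_case (hEXR : S_EXR) (hMAIN : S_MAIN) (hM : S_MALM) (q : ℕ → ℝ) (β : ℝ)
    (hq : ∀ n, 0 < q n) (hβ : Tendsto (fun n : ℕ => (n : ℝ) * (1 - q n)) atTop (𝓝 β)) :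
    (∃ μ : Measure (Idx → ℝ), Root (lamM β) (dens β 0) μ (fun i y => y i)) ∧
    ∀ (Ω : Type) [MeasurableSpace Ω] (μ : Measure Ω) (Y : Idx → Ω → ℝ),
      Root (lamM β) (dens β 0) μ Y →
        LocalLimit (fun n => mallows (q n) n) μ (fun ω => rootS fun i => Y i ω) := by
  have M := hM q β hq hβ
  exact ⟨hEXR _ _ M.lam_cont M.lam_pos M.phi_cont M.phi_pos M.phi_int,
    fun Ω _ μ Y hY => hMAIN _ _ _ M Ω μ Y hY⟩

end Pool.Agent.K3h5.FF
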