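import Pool.Agent.K3h5.FF.Stm

set_option autoImplicit false

open MeasureTheory Filter Topology ProbabilityTheory Set

namespace Pool.Agent.K3h5.FF

theorem subs_le {l m : ℕ} (u : Fin l → Label) (w : Fin m → Label) : subs u w ≤ 2 ^ l := by
  classical
  unfold subs
  calc (Finset.univ.filter fun f : Fin m → Fin l => StrictMono f ∧ ∀ i, u (f i) = w i).card
      ≤ (Finset.univ : Finset (Finset (Fin l))).card := by
        refine Finset.card_le_card_of_injOn (fun f => Finset.univ.image f)
          (fun _ _ => Finset.mem_univ _) ?_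
        intro f hf f' hf' h
        simp only [Finset.coe_filter, Finset.mem_univ, true_and, Set.mem_setOf_eq] at hf hf'
        refine (StrictMono.range_inj hf.1 hf'.1).mp ?_
        have := congrArg (fun s : Finset (Fin l) => (s : Set (Fin l))) h
        simpa using this
    _ = 2 ^ l := by simp

theorem t_PRW : S_INV → S_FRW → S_NICE → S_DET → S_EXPP → S_PRW := by
  intro hINV hFRW hNICE hDET hEXPP P lam phi hM Ω _ μ Y hY S m w
  have hprob := hY.prob
  obtain ⟨-, -, -, C, hC1, hmom⟩ := hFRW P lam phi hM S m w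
  set R : Ω → State := fun ω => rootS fun i => Y i ω with hR
  -- the random variables
  set T : (l : ℕ) → Wd S l → Ω → ℝ := fun l u ω => ((occ (LabS (R ω)) (wd u)).ncard : ℝ) with hT
  have hTint : ∀ l (u : Wd S l), Integrable (T l u) μ ∧ ∫ ω, T l u ω ∂μ = mom lam phi (wd u) := by
    intro l u
    obtain ⟨h1, h2⟩ := hEXPP P lam phi hM Ω μ Y hY l (wd u)
    have e : T l u = fun ω => (((((occ (LabS (R ω)) (wd u)).ncard : ℕ) : ENNReal))).toReal := by
      funext ω
      simp [hT]
    have hfin : ∫⁻ ω, ((((occ (LabS (R ω)) (wd u)).ncard : ℕ) : ENNReal)) ∂μ ≠ ⊤ := by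
      rw [h2]; exact ENNReal.ofReal_ne_top
    constructor
    · rw [e]
      exact integrable_toReal_of_lintegral_ne_top h1 hfin
    · rw [e, integral_toReal h1 (by
        refine Eventually.of_forall fun ω => ?_
        exact ENNReal.natCast_lt_top _), h2, ENNReal.toReal_ofReal (hmom l (wd u)).1]
  set F : ℕ → Ω → ℝ := fun l ω => ∑ u : Wd S l,
    (-1 : ℝ) ^ (l + m) * T l u ω * subs (wd u) (wd w) with hF
  have hFint : ∀ l, Integrable (F l) μ := by
    intro l
    refine integrable_finset_sum _ fun u _ => ?_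
    exact ((hTint l u).1.const_mul _).mul_const _
  have hFval : ∀ l, ∫ ω, F l ω ∂μ = ∑ u : Wd S l,
      (-1 : ℝ) ^ (l + m) * mom lam phi (wd u) * subs (wd u) (wd w) := by
    intro l
    simp only [hF]
    rw [integral_finset_sum _ fun u _ => ((hTint l u).1.const_mul _).mul_const _]
    refine Finset.sum_congr rfl fun u _ => ?_
    rw [integral_mul_const, integral_const_mul, (hTint l u).2]
  have hT0 : ∀ l (u : Wd S l) ω, 0 ≤ T l u ω := fun l u ω => Nat.cast_nonneg _
  have hFnorm : ∀ l, ∫ ω, ‖F l ω‖ ∂μ ≤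
      ((Fintype.card {x : Label // x ∈ Win S} : ℝ) * 2 * C) ^ l / (l.factorial : ℝ) := by
    intro l
    calc ∫ ω, ‖F l ω‖ ∂μ ≤ ∫ ω, ∑ u : Wd S l, T l u ω * 2 ^ l ∂μ := by
          refine integral_mono (hFint l).norm
            (integrable_finset_sum _ fun u _ => (hTint l u).1.mul_const _) fun ω => ?_
          refine (norm_sum_le _ _).trans (Finset.sum_le_sum fun u _ => ?_)
          rw [norm_mul, norm_mul, norm_pow, norm_neg, norm_one, one_pow, one_mul,
            Real.norm_of_nonneg (hT0 l u ω), Real.norm_of_nonneg (Nat.cast_nonneg _)]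
          refine mul_le_mul_of_nonneg_left ?_ (hT0 l u ω)
          exact_mod_cast subs_le (wd u) (wd w)
      _ = ∑ u : Wd S l, mom lam phi (wd u) * 2 ^ l := by
          rw [integral_finset_sum _ fun u _ => (hTint l u).1.mul_const _]
          refine Finset.sum_congr rfl fun u _ => ?_
          rw [integral_mul_const, (hTint l u).2]
      _ ≤ ∑ _u : Wd S l, C ^ l / (l.factorial : ℝ) * 2 ^ l := by
          refine Finset.sum_le_sum fun u _ => ?_
          exact mul_le_mul_of_nonneg_right (hmom l (wd u)).2 (by positivity)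
      _ = ((Fintype.card {x : Label // x ∈ Win S} : ℝ) * 2 * C) ^ l / (l.factorial : ℝ) := by
          rw [Finset.sum_const, Finset.card_univ, Fintype.card_fun, Fintype.card_fin,
            nsmul_eq_mul, mul_pow, mul_pow]
          push_cast
          ring
  have hsumm : Summable fun l => ∫ ω, ‖F l ω‖ ∂μ :=
    Summable.of_nonneg_of_le (fun l => integral_nonneg fun ω => norm_nonneg _) hFnorm
      (Real.summable_pow_div_factorial _)
  have hHS := hasSum_integral_of_summable_integral_norm hFint hsumm
  set E : Set Ω := {ω | IsWord S (LabS (R ω)) (wd w)} with hE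
  have hae : ∀ᵐ ω ∂μ, HasSum (fun l => F l ω) (E.indicator (fun _ => (1 : ℝ)) ω) := by
    filter_upwards [hNICE lam phi Ω μ Y hY] with ω hω
    obtain ⟨-, -, -, hfin, -, -⟩ := hDET _ hω
    obtain ⟨-, -, -, h4⟩ := hINV ℝ S (LabS (R ω)) (hfin S) (by
      intro l _ l' _ x h1 h2
      have h1' : R ω x = some l := h1
      have h2' : R ω x = some l' := h2
      rw [h1'] at h2'
      exact Option.some.inj h2')
    obtain ⟨l₀, h0, h1, h2⟩ := h4 m w
    have key : (E.indicator (fun _ => (1 : ℝ)) ω) = ∑ l ∈ Finset.range l₀, F l ω := by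
      by_cases hw : ω ∈ E
      · rw [Set.indicator_of_mem hw, ← h1 hw]
      · rw [Set.indicator_of_notMem hw, ← h2 hw]
    rw [key]
    refine hasSum_sum_of_ne_finset_zero fun l hl => ?_
    rw [Finset.mem_range, not_lt] at hl
    refine Finset.sum_eq_zero fun u _ => ?_
    have : T l u ω = 0 := by
      simp only [hT]
      rw [h0 l hl u]
      simp
    rw [this]
    simp
  have hmeas : AEMeasurable (E.indicator (fun _ => (1 : ℝ))) μ := by
    refine aemeasurable_of_tendsto_metrizable_ae' (f := fun n ω => ∑ l ∈ Finset.range n, F l ω)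
      (fun n => ?_) ?_
    · exact (integrable_finset_sum _ fun l _ => hFint l).aestronglyMeasurable.aemeasurable
    · filter_upwards [hae] with ω hω
      exact hω.tendsto_sum_nat
  have hnull : NullMeasurableSet E μ := (aemeasurable_indicator_const_iff (1 : ℝ)).mp hmeas
  refine ⟨hnull, ?_⟩
  have h1 : ∫ ω, (∑' l, F l ω) ∂μ = ∫ ω, E.indicator (fun _ => (1 : ℝ)) ω ∂μ := by
    refine integral_congr_ae ?_
    filter_upwards [hae] with ω hω
    exact hω.tsum_eq
  have h2 : ∫ ω, E.indicator (fun _ => (1 : ℝ)) ω ∂μ = μ.real E := by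
    rw [integral_indicator₀ hnull]
    simp
  rw [← h2, ← h1, ← hHS.tsum_eq]
  unfold limW
  exact tsum_congr fun l => hFval l

end Pool.Agent.K3h5.FF
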