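import Pool.Agent.K3h5.FF.Defs

/-!
# The fixed point forest with Ewens or Mallows roots: statements of the bricks (helper5)
-/

set_option autoImplicit false

open MeasureTheory Filter Topology ProbabilityTheory Set

namespace Pool.Agent.K3h5.FF

/-! ### graphs -/

/-- BALL: two graphs with parent maps which are related by a bisimulation have isomorphic balls. -/
def S_BALL : Prop := ∀ (V₁ V₂ M₁ M₂ : Type) (G₁ : SimpleGraph V₁) (G₂ : SimpleGraph V₂)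
  (par₁ : V₁ → Option V₁) (par₂ : V₂ → Option V₂) (mark₁ : V₁ → M₁) (mark₂ : V₂ → M₂),
  (∀ v w, G₁.Adj v w ↔ par₁ v = some w ∨ par₁ w = some v) →
  (∀ v w, G₂.Adj v w ↔ par₂ v = some w ∨ par₂ w = some v) →
  (∀ v w w', par₁ w = some v → par₁ w' = some v → mark₁ w = mark₁ w' → w = w') →
  (∀ v w w', par₂ w = some v → par₂ w' = some v → mark₂ w = mark₂ w' → w = w') →
  ∀ (E : M₁ → M₂ → Prop), (∀ a b a' b', E a b → E a' b' → (a = a' ↔ b = b')) →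
  ∀ (R : ℕ → V₁ → V₂ → Prop),
  (∀ s v₁ v₂, R (s + 1) v₁ v₂ → ∃ w₁ w₂, par₁ v₁ = some w₁ ∧ par₂ v₂ = some w₂ ∧
    E (mark₁ v₁) (mark₂ v₂) ∧ R s w₁ w₂) →
  (∀ s v₁ v₂ w₁, R (s + 1) v₁ v₂ → par₁ w₁ = some v₁ → ∃ w₂, par₂ w₂ = some v₂ ∧
    E (mark₁ w₁) (mark₂ w₂) ∧ R s w₁ w₂) →
  (∀ s v₁ v₂ w₂, R (s + 1) v₁ v₂ → par₂ w₂ = some v₂ → ∃ w₁, par₁ w₁ = some v₁ ∧
    E (mark₁ w₁) (mark₂ w₂) ∧ R s w₁ w₂) →
  ∀ (r : ℕ) (o₁ : V₁) (o₂ : V₂), R (2 * r + 3) o₁ o₂ →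
  (∀ i j, i ≤ 2 * r + 2 → j ≤ 2 * r + 2 → i ≠ j →
    (fun v : Option V₁ => v.bind par₁)^[i] (some o₁) ≠
      (fun v : Option V₁ => v.bind par₁)^[j] (some o₁)) →
  (∀ i j, i ≤ 2 * r + 2 → j ≤ 2 * r + 2 → i ≠ j →
    (fun v : Option V₂ => v.bind par₂)^[i] (some o₂) ≠
      (fun v : Option V₂ => v.bind par₂)^[j] (some o₂)) →
  ∃ (e : G₁.induce (ballSet G₁ o₁ r) ≃g G₂.induce (ballSet G₂ o₂ r))
    (h₁ : o₁ ∈ ballSet G₁ o₁ r) (h₂ : o₂ ∈ ballSet G₂ o₂ r), e ⟨o₁, h₁⟩ = ⟨o₂, h₂⟩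

/-- SYSP: the fixed point forest is a system. -/
def S_SYSP : Prop := ∀ n B : ℕ, 0 < n → ∃ y : Sys (Equiv.Perm (Fin n)) ℤ,
  y.G = forest n ∧ (∀ π l a, y.Lab π l a ↔ LabP π l a) ∧ ∀ s π, y.Good s π ↔ GoodP n B s π

/-- SYSS: the limit graph is a system. -/
def S_SYSS : Prop := ∃ y : Sys State ℝ,
  y.G = limitGraph ∧ (∀ v l a, y.Lab v l a ↔ LabS v l a) ∧ ∀ s v, y.Good s v ↔ GoodS v

/-- WB: good vertices with the same word have isomorphic balls. -/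
def S_WB : Prop := ∀ (V₁ V₂ M₁ M₂ : Type) [LinearOrder M₁] [LinearOrder M₂] (y₁ : Sys V₁ M₁)
  (y₂ : Sys V₂ M₂) (r : ℕ) (o₁ : V₁) (o₂ : V₂) (m : ℕ) (w : Fin m → Label),
  y₁.Good (2 * r + 3) o₁ → y₂.Good (2 * r + 3) o₂ → IsWord (2 * r + 3) (y₁.Lab o₁) w →
  IsWord (2 * r + 3) (y₂.Lab o₂) w →
  ∀ (W : Type) (H : SimpleGraph W) (p : W), BallIso y₁.G o₁ r H p ↔ BallIso y₂.G o₂ r H p

/-! ### words -/

/-- INV: inversion formula for the numbers of occurrences. -/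
def S_INV : Prop := ∀ (M : Type) [LinearOrder M] (S : ℕ) (L : Label → M → Prop),
  {x | ∃ l ∈ Win S, L l x}.Finite →
  (∀ l ∈ Win S, ∀ l' ∈ Win S, ∀ x, L l x → L l' x → l = l') →
    (∃ (m : ℕ) (w : Wd S m), IsWord S L (wd w)) ∧
    (∀ (m m' : ℕ) (w : Wd S m) (w' : Wd S m'), IsWord S L (wd w) → IsWord S L (wd w') →
      (⟨m, w⟩ : (k : ℕ) × Wd S k) = ⟨m', w'⟩) ∧
    (∀ (l : ℕ) (u : Wd S l), (occ L (wd u)).Finite) ∧
    (∀ (m : ℕ) (w : Wd S m), ∃ l₀ : ℕ, (∀ l, l₀ ≤ l → ∀ u : Wd S l, (occ L (wd u)).ncard = 0) ∧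
      (IsWord S L (wd w) → ∑ l ∈ Finset.range l₀, ∑ u : Wd S l,
        (-1 : ℝ) ^ (l + m) * (occ L (wd u)).ncard * subs (wd u) (wd w) = 1) ∧
      (¬ IsWord S L (wd w) → ∑ l ∈ Finset.range l₀, ∑ u : Wd S l,
        (-1 : ℝ) ^ (l + m) * (occ L (wd u)).ncard * subs (wd u) (wd w) = 0))

/-- RIE: Riemann sums with almost everywhere convergence. -/
def S_RIE : Prop := ∀ (l : ℕ) (f : ℕ → (Fin l → ℤ) → ℝ) (K : ℝ) (g : (Fin l → ℝ) → ℝ),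
  (∀ᶠ n in atTop, ∀ a, |f n a| ≤ K) →
  (∀ᵐ x ∂(volume.restrict {x : Fin l → ℝ | ∀ i, x i ∈ Ioo (0 : ℝ) 1}),
    Tendsto (fun n : ℕ => f n (fun i => ⌊(n : ℝ) * x i⌋)) atTop (𝓝 (g x))) →
  Tendsto (fun n : ℕ => (∑ a : Fin l → Fin n, f n (fun i => ((a i : ℕ) : ℤ))) / (n : ℝ) ^ l) atTop
    (𝓝 (∫ x in {x : Fin l → ℝ | ∀ i, x i ∈ Ioo (0 : ℝ) 1}, g x))

/-- expected number of occurrences in the random permutation -/
noncomputable def ET (P : (n : ℕ) → Equiv.Perm (Fin n) → ℝ) (S n : ℕ) {l : ℕ}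
    (u : Fin l → Label) : ℝ := ∑ π, P n π * (occ (LabT S π) u).ncard

/-- ETB: bound for the expected number of occurrences, and exact sum over letters. -/
def S_ETB : Prop := ∀ (P : (n : ℕ) → Equiv.Perm (Fin n) → ℝ) (C : ℝ), 1 ≤ C →
  (∀ n π, 0 ≤ P n π) →
  (∀ (n l : ℕ) (p a : Fin l → Fin n), Function.Injective p →
    Function.Injective a → pr (P n) {π | ∀ i, π (p i) = a i} ≤ C ^ l / (n.descFactorial l : ℝ)) →
  (∀ (n l : ℕ) (u : Fin l → Label) (a : Fin l → ℤ), Function.Injective a →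
    pr (P n) {π | ∀ i, LabP π (u i) (a i)} ≤ C ^ l / (n.descFactorial l : ℝ)) ∧
  (∀ (S n l : ℕ) (u : Fin l → Label), ET P S n u ≤ C ^ l / (l.factorial : ℝ)) ∧
  (∀ (S n l : ℕ) (u : Fin l → Label), ET P S n u = ∑ a : Fin l → Fin n,
    open Classical in if StrictMono a ∧ ∀ i, 2 * S < (a i).val then
      pr (P n) {π | ∀ i, LabP π (u i) ((a i : ℕ) : ℤ)} else 0)

/-- ETL: the expected number of occurrences converges. -/
def S_ETL : Prop := ∀ (P : (n : ℕ) → Equiv.Perm (Fin n) → ℝ) (lam : ℤ → ℝ → ℝ) (phi : ℝ → ℝ),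
  Model P lam phi → ∀ (S l : ℕ) (u : Fin l → Label),
    Tendsto (fun n => ET P S n u) atTop (𝓝 (mom lam phi u))

/-- BAD: bad permutations are rare. -/
def S_BAD : Prop := ∀ (P : (n : ℕ) → Equiv.Perm (Fin n) → ℝ) (lam : ℤ → ℝ → ℝ) (phi : ℝ → ℝ),
  Model P lam phi → ∀ S B : ℕ, 4 * S + 4 ≤ B →
    Tendsto (fun n => pr (P n) {π | ¬ GoodP n B S π}) atTop (𝓝 0)

/-- the limit probability of the word `w` -/
noncomputable def limW (lam : ℤ → ℝ → ℝ) (phi : ℝ → ℝ) (S : ℕ) {m : ℕ} (w : Wd S m) : ℝ :=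
  ∑' l : ℕ, ∑ u : Wd S l, (-1 : ℝ) ^ (l + m) * mom lam phi (wd u) * subs (wd u) (wd w)

/-- FRW: the probability of every word converges. -/
def S_FRW : Prop := ∀ (P : (n : ℕ) → Equiv.Perm (Fin n) → ℝ) (lam : ℤ → ℝ → ℝ) (phi : ℝ → ℝ),
  Model P lam phi → ∀ (S m : ℕ) (w : Wd S m),
    Tendsto (fun n => pr (P n) {π | IsWord S (LabT S π) (wd w)}) atTop (𝓝 (limW lam phi S w)) ∧
    (∀ n, ∑' v : (k : ℕ) × Wd S k, pr (P n) {π | IsWord S (LabT S π) (wd v.2)} = 1) ∧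
    (∀ n, Summable fun v : (k : ℕ) × Wd S k => pr (P n) {π | IsWord S (LabT S π) (wd v.2)}) ∧
    (∃ C : ℝ, 1 ≤ C ∧ ∀ (l : ℕ) (u : Fin l → Label), 0 ≤ mom lam phi u ∧
      mom lam phi u ≤ C ^ l / (l.factorial : ℝ))

/-! ### the Poisson side -/

/-- EXR: the random variables exist. -/
def S_EXR : Prop := ∀ (lam : ℤ → ℝ → ℝ) (phi : ℝ → ℝ), (∀ k, ContinuousOn (lam k) (Icc 0 1)) →
  (∀ k, ∀ x ∈ Icc (0 : ℝ) 1, 0 < lam k x) → ContinuousOn phi (Icc 0 1) →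
  (∀ x ∈ Icc (0 : ℝ) 1, 0 < phi x) → ∫ x in (0 : ℝ)..1, phi x = 1 →
  ∃ (μ : Measure (Idx → ℝ)), Root lam phi μ (fun i y => y i)

/-- NICE: almost surely the values are nice. -/
def S_NICE : Prop := ∀ (lam : ℤ → ℝ → ℝ) (phi : ℝ → ℝ) (Ω : Type) [MeasurableSpace Ω]
  (μ : Measure Ω) (Y : Idx → Ω → ℝ), Root lam phi μ Y → ∀ᵐ ω ∂μ, Nice (fun i => Y i ω)

/-- DET: deterministic facts on the root state. -/
def S_DET : Prop := ∀ y : Idx → ℝ, Nice y →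
  (∀ z j, rootS y z = some (Sum.inr j) ↔ z = y (Sum.inr (Sum.inr j))) ∧
  (∀ z k, rootS y z = some (Sum.inl k) ↔ z ∈ pts y k) ∧
  GoodS (rootS y) ∧
  (∀ S, {x | ∃ l ∈ Win S, LabS (rootS y) l x}.Finite) ∧
  (∀ (l : ℕ) (u : Fin l → Label), FrontInj u → (occ (LabS (rootS y)) u).ncard =
    {c | c ∈ Asg u ∧ Function.Injective (ix u c) ∧
      (∀ i k, u i = Sum.inl k → (c i : ℝ) < y (Sum.inl k)) ∧
      StrictMono (fun i => y (Sum.inr (ix u c i)))}.ncard) ∧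
  (∀ (l : ℕ) (u : Fin l → Label), ¬ FrontInj u → (occ (LabS (rootS y)) u).ncard = 0)

/-- PFM: factorial moments of the Poisson distribution. -/
def S_PFM : Prop := ∀ (L : NNReal) (c : ℕ),
  ∫⁻ N, ((N.descFactorial c : ℕ) : ENNReal) ∂(poissonMeasure L) = ((L : NNReal) : ENNReal) ^ c

/-- the total mass of a mark -/
noncomputable def mass (lam : ℤ → ℝ → ℝ) : Label → ℝ
  | Sum.inl k => ∫ x in (0 : ℝ)..1, lam k x
  | Sum.inr _ => 1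

/-- EXA: the sum of the probabilities of the conditions on the numbers of points. -/
def S_EXA : Prop := ∀ (lam : ℤ → ℝ → ℝ) (phi : ℝ → ℝ) (Ω : Type) [MeasurableSpace Ω]
  (μ : Measure Ω) (Y : Idx → Ω → ℝ), Root lam phi μ Y → ∀ (l : ℕ) (u : Fin l → Label),
  ∑' c : {c : Fin l → ℕ // c ∈ Asg u ∧ Function.Injective (ix u c)},
    μ {ω | ∀ i k, u i = Sum.inl k → ((c.1 i : ℕ) : ℝ) < Y (Sum.inl k) ω} =
  open Classical in if FrontInj u then ∏ i, ENNReal.ofReal (mass lam (u i)) else 0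

/-- EXB: the probability of the order condition, and independence. -/
def S_EXB : Prop := ∀ (lam : ℤ → ℝ → ℝ) (phi : ℝ → ℝ) (Ω : Type) [MeasurableSpace Ω]
  (μ : Measure Ω) (Y : Idx → Ω → ℝ), Root lam phi μ Y →
  (∀ k, ContinuousOn (lam k) (Icc 0 1)) → (∀ k, ∀ x ∈ Icc (0 : ℝ) 1, 0 < lam k x) →
  ContinuousOn phi (Icc 0 1) → (∀ x ∈ Icc (0 : ℝ) 1, 0 < phi x) →
  ∀ (l : ℕ) (u : Fin l → Label), FrontInj u → ∀ c : Fin l → ℕ, Function.Injective (ix u c) →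
  μ {ω | (∀ i k, u i = Sum.inl k → ((c i : ℕ) : ℝ) < Y (Sum.inl k) ω) ∧
      StrictMono (fun i => Y (Sum.inr (ix u c i)) ω)} *
    (∏ i, ENNReal.ofReal (mass lam (u i))) =
  μ {ω | ∀ i k, u i = Sum.inl k → ((c i : ℕ) : ℝ) < Y (Sum.inl k) ω} *
    ENNReal.ofReal (mom lam phi u)

/-- EXPP: the expected number of occurrences in the random root. -/
def S_EXPP : Prop := ∀ (P : (n : ℕ) → Equiv.Perm (Fin n) → ℝ) (lam : ℤ → ℝ → ℝ) (phi : ℝ → ℝ),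
  Model P lam phi → ∀ (Ω : Type) [MeasurableSpace Ω]
  (μ : Measure Ω) (Y : Idx → Ω → ℝ), Root lam phi μ Y → ∀ (l : ℕ) (u : Fin l → Label),
  AEMeasurable (fun ω => (((occ (LabS (rootS fun i => Y i ω)) u).ncard : ℕ) : ENNReal)) μ ∧
  ∫⁻ ω, (((occ (LabS (rootS fun i => Y i ω)) u).ncard : ℕ) : ENNReal) ∂μ =
    ENNReal.ofReal (mom lam phi u)

/-- PRW: the law of the word of the random root. -/
def S_PRW : Prop := ∀ (P : (n : ℕ) → Equiv.Perm (Fin n) → ℝ) (lam : ℤ → ℝ → ℝ) (phi : ℝ → ℝ),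
  Model P lam phi → ∀ (Ω : Type) [MeasurableSpace Ω]
  (μ : Measure Ω) (Y : Idx → Ω → ℝ), Root lam phi μ Y → ∀ (S m : ℕ) (w : Wd S m),
  NullMeasurableSet {ω | IsWord S (LabS (rootS fun i => Y i ω)) (wd w)} μ ∧
  μ.real {ω | IsWord S (LabS (rootS fun i => Y i ω)) (wd w)} = limW lam phi S w

/-- SCH: Scheffé's lemma for discrete laws. -/
def S_SCH : Prop := ∀ (T : Type) [Countable T] (p : ℕ → T → ℝ) (q : T → ℝ),
  (∀ n t, 0 ≤ p n t) → (∀ t, 0 ≤ q t) → (∀ n, HasSum (p n) 1) → HasSum q 1 →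
  (∀ t, Tendsto (fun n => p n t) atTop (𝓝 (q t))) → ∀ A : Set T,
    Tendsto (fun n => ∑' t, A.indicator (p n) t) atTop (𝓝 (∑' t, A.indicator q t))

/-- MAIN: the general theorem. -/
def S_MAIN : Prop := ∀ (P : (n : ℕ) → Equiv.Perm (Fin n) → ℝ) (lam : ℤ → ℝ → ℝ) (phi : ℝ → ℝ),
  Model P lam phi → ∀ (Ω : Type) [MeasurableSpace Ω]
  (μ : Measure Ω) (Y : Idx → Ω → ℝ), Root lam phi μ Y →
    LocalLimit P μ (fun ω => rootS fun i => Y i ω)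

/-! ### general bounds for weights -/

/-- the total weight of an event -/
noncomputable def wt {n : ℕ} (w : Equiv.Perm (Fin n) → ℝ) (A : Set (Equiv.Perm (Fin n))) : ℝ :=
  pr w A

/-- RATIO: if the weights change at most by the factor `C` under left multiplication with a
transposition, the correlations are bounded. -/
def S_RATIO : Prop := ∀ (n : ℕ) (w : Equiv.Perm (Fin n) → ℝ) (C : ℝ), 1 ≤ C → (∀ π, 0 ≤ w π) →
  (∀ π x y, w (Equiv.swap x y * π) ≤ C * w π) →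
  ∀ (l : ℕ) (p a : Fin l → Fin n), Function.Injective p → Function.Injective a →
    pr w {π | ∀ i, π (p i) = a i} * (n.descFactorial l : ℝ) ≤ C ^ l * ∑ π, w π

/-- SAND: comparison of the correlations at neighbouring places. -/
def S_SAND : Prop := ∀ (n D : ℕ) (w : Equiv.Perm (Fin n) → ℝ) (K : ℝ), 1 ≤ K → (∀ π, 0 ≤ w π) →
  (∀ π (x y : Fin n), |(x.val : ℤ) - y.val| ≤ D → w (Equiv.swap x y * π) ≤ K * w π ∧
    w (π * Equiv.swap x y) ≤ K * w π) →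
  ∀ (l : ℕ) (p a : Fin l → Fin n) (I J : Fin l → Finset (Fin n)), Function.Injective p →
    Function.Injective a → (∀ i i', i ≠ i' → Disjoint (I i) (I i')) →
    (∀ i i', i ≠ i' → Disjoint (J i) (J i')) → (∀ i i', p i ∉ I i') → (∀ i i', a i ∉ J i') →
    (∀ i, ∀ x ∈ I i, |(x.val : ℤ) - (p i).val| ≤ D) →
    (∀ i, ∀ x ∈ J i, |(x.val : ℤ) - (a i).val| ≤ D) →
    pr w {π | ∀ i, π (p i) = a i} * (∏ i, ((I i).card * (J i).card : ℝ)) ≤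
      K ^ (2 * l) * ∑ π, w π * ∏ i, (NN (I i) (J i) π : ℝ) ∧
    ∑ π, w π * ∏ i, (NN (I i) (J i) π : ℝ) ≤
      K ^ (2 * l) * (pr w {π | ∀ i, π (p i) = a i} * ∏ i, ((I i).card * (J i).card : ℝ))

/-! ### Ewens -/

/-- CYC: splitting off a fixed point increases the number of cycles by one; a transposition
changes the number of cycles at most by two. -/
def S_CYC : Prop := ∀ (n : ℕ) (π : Equiv.Perm (Fin n)),
  (∀ p a, π p = a → a ≠ p → cyc (Equiv.swap p a * π) = cyc π + 1) ∧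
  (∀ x y, cyc (Equiv.swap x y * π) ≤ cyc π + 2 ∧ cyc π ≤ cyc (Equiv.swap x y * π) + 2)

/-- EW: total weights. -/
def S_EW : Prop := ∀ (θ : ℝ), 0 < θ → ∀ (n : ℕ),
  (∑ σ : Equiv.Perm (Fin n), θ ^ cyc σ = ∏ i ∈ Finset.range n, (θ + i)) ∧
  ∀ (l : ℕ) (p a : Fin l → Fin n), Function.Injective p → Function.Injective a →
    (∀ i i', p i = a i' → i = i') →
    pr (fun σ : Equiv.Perm (Fin n) => θ ^ cyc σ) {π | ∀ i, π (p i) = a i} =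
      θ ^ ((Finset.univ.filter fun i => p i = a i).card) * ∏ i ∈ Finset.range (n - l), (θ + i)

/-- the intensities for the Ewens root -/
noncomputable def lamE (θ : ℝ) (k : ℤ) (_ : ℝ) : ℝ := if k = 0 then θ else 1

/-- EWM -/
def S_EWM : Prop := ∀ θ : ℝ, 0 < θ → Model (fun n => ewens θ n) (lamE θ) (fun _ => 1)

/-! ### Mallows -/

/-- INVS: inversions and transpositions. -/
def S_INVS : Prop := ∀ (n : ℕ) (π : Equiv.Perm (Fin n)) (x y : Fin n),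
  (inv (Equiv.swap x y * π) : ℤ) ≤ inv π + 2 * |(x.val : ℤ) - y.val| ∧
  (inv (π * Equiv.swap x y) : ℤ) ≤ inv π + 2 * |(x.val : ℤ) - y.val|

/-- DEC: insertion of the first letter. -/
def S_DEC : Prop := ∀ n : ℕ, ∃ e : Fin (n + 1) × Equiv.Perm (Fin n) ≃ Equiv.Perm (Fin (n + 1)),
  ∀ (a : Fin (n + 1)) (σ : Equiv.Perm (Fin n)), e (a, σ) 0 = a ∧
    (∀ i : Fin n, e (a, σ) i.succ = a.succAbove (σ i)) ∧ inv (e (a, σ)) = a.val + inv σ ∧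
    (∀ t m, Fc (t + 1) m (e (a, σ)) = if a.val < m then 1 + Fc t (m - 1) σ else Fc t m σ)

/-- MOM: `q`-factorial moments. -/
def S_MOM : Prop := ∀ (q : ℝ), 0 < q → ∀ n t m : ℕ, t ≤ n → m ≤ n →
  (∀ π : Equiv.Perm (Fin n), Fc t m π ≤ m) ∧
  (qn q n * ∑ π : Equiv.Perm (Fin n), q ^ inv π * (q ^ Fc t m π * qn q (m - Fc t m π)) =
    (∑ π : Equiv.Perm (Fin n), q ^ inv π) * (qn q m * q ^ t * qn q (n - t))) ∧
  (qn q n * qn q (n - 1) * ∑ π : Equiv.Perm (Fin n),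
      q ^ inv π * (q ^ (2 * Fc t m π) * (qn q (m - Fc t m π) * qn q (m - Fc t m π - 1))) =
    (∑ π : Equiv.Perm (Fin n), q ^ inv π) *
      (qn q m * qn q (m - 1) * q ^ (2 * t) * (qn q (n - t) * qn q (n - t - 1))))

/-- VAR: second moment bound. -/
def S_VAR : Prop := ∀ (q : ℝ), 0 < q → ∀ n t m : ℕ, 0 < n → t ≤ n → m ≤ n →
  ∑ π : Equiv.Perm (Fin n), mallows q n π * (qn q (Fc t m π) - qn q m * qn q t / qn q n) ^ 2 ≤
    max 1 (q ^ n) * qn q m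

/-- QN: asymptotics of the `q`-numbers. -/
def S_QN : Prop := ∀ (q : ℕ → ℝ) (β : ℝ), (∀ n, 0 < q n) →
  Tendsto (fun n : ℕ => (n : ℝ) * (1 - q n)) atTop (𝓝 β) →
  Tendsto (fun n : ℕ => (n : ℝ) * Real.log (q n)) atTop (𝓝 (-β)) ∧
  (∃ K : ℝ, 1 ≤ K ∧ ∀ n : ℕ, (max (q n) (q n)⁻¹) ^ n ≤ K) ∧
  (∀ ε : ℝ, 0 < ε → ∀ᶠ n : ℕ in atTop, ∀ k ≤ n, |qn (q n) k / n - g β (k / n)| ≤ ε)

/-- GU: the functions `g`, `UU` and `dens`. -/
def S_GU : Prop := ∀ β : ℝ,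
  Continuous (g β) ∧ g β 0 = 0 ∧ 0 < g β 1 ∧
  (∀ x y : ℝ, 0 ≤ x → x ≤ y → y ≤ 1 → Real.exp (-|β|) * (y - x) ≤ g β y - g β x) ∧
  (∀ x ∈ Icc (0 : ℝ) 1, ∀ y ∈ Icc (0 : ℝ) 1, UU β x y ∈ Icc (0 : ℝ) 1 ∧
    g β (UU β x y) = g β x * g β y / g β 1 ∧ 0 < g β 1 - β * g β x * g β y) ∧
  ContinuousOn (fun z : ℝ × ℝ => dens β z.1 z.2) (Icc 0 1 ×ˢ Icc 0 1) ∧
  (∀ x ∈ Icc (0 : ℝ) 1, ∀ y ∈ Icc (0 : ℝ) 1, 0 < dens β x y) ∧
  (∫ y in (0 : ℝ)..1, dens β 0 y = 1) ∧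
  (∀ x x' y y' : ℝ, 0 ≤ x → x ≤ x' → x' ≤ 1 → 0 ≤ y → y ≤ y' → y' ≤ 1 →
    UU β x' y' - UU β x y' - UU β x' y + UU β x y =
      ∫ s in x..x', ∫ t in y..y', dens β s t)

/-- LLN: the law of large numbers for Mallows permutations. -/
def S_LLN : Prop := ∀ (q : ℕ → ℝ) (β : ℝ), (∀ n, 0 < q n) →
  Tendsto (fun n : ℕ => (n : ℝ) * (1 - q n)) atTop (𝓝 β) →
  ∀ (t m : ℕ → ℕ) (x y : ℝ), (∀ᶠ n in atTop, t n ≤ n) → (∀ᶠ n in atTop, m n ≤ n) →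
  Tendsto (fun n : ℕ => (t n : ℝ) / n) atTop (𝓝 x) →
  Tendsto (fun n : ℕ => (m n : ℝ) / n) atTop (𝓝 y) →
  Tendsto (fun n : ℕ => ∑ π : Equiv.Perm (Fin n), mallows (q n) n π *
    |(Fc (t n) (m n) π : ℝ) / n - UU β x y|) atTop (𝓝 0)

/-- the interval `[a, b)` in `Fin n` -/
def seg (n a b : ℕ) : Finset (Fin n) := Finset.univ.filter fun i => a ≤ i.val ∧ i.val < b

/-- BOXL: limit of the box counts. -/
def S_BOXL : Prop := ∀ (q : ℕ → ℝ) (β : ℝ), (∀ n, 0 < q n) →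
  Tendsto (fun n : ℕ => (n : ℝ) * (1 - q n)) atTop (𝓝 β) →
  ∀ (l : ℕ) (t t' m m' : ℕ → Fin l → ℕ) (x x' y y' : Fin l → ℝ),
  (∀ᶠ n in atTop, ∀ i, t n i ≤ t' n i ∧ t' n i ≤ n ∧ m n i ≤ m' n i ∧ m' n i ≤ n) →
  (∀ i, Tendsto (fun n : ℕ => (t n i : ℝ) / n) atTop (𝓝 (x i))) →
  (∀ i, Tendsto (fun n : ℕ => (t' n i : ℝ) / n) atTop (𝓝 (x' i))) →
  (∀ i, Tendsto (fun n : ℕ => (m n i : ℝ) / n) atTop (𝓝 (y i))) →
  (∀ i, Tendsto (fun n : ℕ => (m' n i : ℝ) / n) atTop (𝓝 (y' i))) →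
  Tendsto (fun n : ℕ => ∑ π : Equiv.Perm (Fin n), mallows (q n) n π *
    ∏ i, ((NN (seg n (t n i) (t' n i)) (seg n (m n i) (m' n i)) π : ℝ) / n)) atTop
    (𝓝 (∏ i, ∫ s in (x i)..(x' i), ∫ r in (y i)..(y' i), dens β s r))

/-- the intensities for the Mallows root -/
noncomputable def lamM (β : ℝ) (_ : ℤ) (x : ℝ) : ℝ := dens β x x

/-- MLIM: the local limit of the correlations. -/
def S_MLIM : Prop := ∀ (q : ℕ → ℝ) (β : ℝ), (∀ n, 0 < q n) →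
  Tendsto (fun n : ℕ => (n : ℝ) * (1 - q n)) atTop (𝓝 β) →
  ∀ (l : ℕ) (u : Fin l → Label), FrontInj u → ∀ x : Fin l → ℝ, StrictMono x →
    (∀ i, x i ∈ Ioo (0 : ℝ) 1) →
    Tendsto (fun n : ℕ => (n : ℝ) ^ l *
      pr (mallows (q n) n) {π | ∀ i, LabP π (u i) ⌊(n : ℝ) * x i⌋}) atTop
      (𝓝 (∏ i, rho (lamM β) (dens β 0) (u i) (x i)))

/-- MALM -/
def S_MALM : Prop := ∀ (q : ℕ → ℝ) (β : ℝ), (∀ n, 0 < q n) →
  Tendsto (fun n : ℕ => (n : ℝ) * (1 - q n)) atTop (𝓝 β) →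
  Model (fun n => mallows (q n) n) (lamM β) (dens β 0)

end Pool.Agent.K3h5.FF
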